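import Mathlib
import Pool.Agent.Y786.FR.Zeta

/-!
# Quotients of Dedekind zeta functions of subfields with free groups

`Pool.Agent.H541R3.ART.ArtinData Γ s₀` is a family of functions with the formal properties of the
Artin L-functions of a Galois extension `E/K₀` with group `Γ` near a point `s₀ ≠ 1`: functions
`L ψ` for the irreducible characters `ψ` of `Γ` and `Lin H l` for the linear characters `l` of the
subgroups `H`, such that `L ψ` is meromorphic and not identically zero near `s₀` (Brauer), `Lin H l`
has no pole at `s₀` (Artin reciprocity and Hecke), and `Lin H l` is the product of the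
`L ψ ^ ⟨ψ|_H, l⟩` (induction). In particular `Lin H 1` stands for the Dedekind zeta function of the
fixed field of `H`.

`Pool.Agent.Y786.FR.FreeSub H` says that the subgroup `H` of the symmetric group on `m` points acts
freely: no element other than the identity fixes a point.
-/

set_option autoImplicit false

open Pool.Agent.H541R3.ART Pool.Agent.Y786.FR

/-- For all `N` and `ε > 0` there is `m₀ ≥ 1` such that the following holds for every multiple
`m ≥ 1` of `m₀`, every finite group `Γ` containing the symmetric group `S_m` (through `j`), every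
Galois extension `E/K₀` with group `Γ` and every point `s₀ ≠ 1`. Write `o H` for the order of
vanishing at `s₀` of the Dedekind zeta function of the field `E ^ H`, and consider the subgroups of
`S_m` of order at most `N` which act freely on the `m` points (for `m = m₀` every group of order at
most `N` has such an image).

* If `ζ_E` vanishes at `s₀`, so does the zeta function of `E ^ H`.
* If `|H| < |H'|`, with `H` contained in `H'` or not, then `o H' ≤ o H`: for `L = E ^ H` and
  `K = E ^ H'` the quotient `ζ_L / ζ_K` is holomorphic at `s₀`.
* The ratio of `o H - o H'` and `1 / |H| - 1 / |H'|` (a multiple of the difference of the degrees of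
  `L` and `K`) is the same for all such pairs up to the factor `1 + ε`. -/
theorem Pool.Agent.Results.MP_9fc8a5_nt.FreeSubfields.result (N : ℕ) (ε : ℝ) (hε : 0 < ε) :
    ∃ m₀ : ℕ, 0 < m₀ ∧
      (∀ (G : Type) [Group G] [Finite G], Nat.card G ≤ N →
        ∃ ι : G →* Equiv.Perm (Fin m₀), Function.Injective ι ∧ FreeSub ι.range) ∧
      ∀ m : ℕ, 0 < m → m₀ ∣ m → ∀ (Γ : Type) [Group Γ] [Finite Γ] (j : Equiv.Perm (Fin m) →* Γ),
        Function.Injective j → ∀ (s₀ : ℂ) (A : ArtinData Γ s₀),
        ∃ o : Subgroup (Equiv.Perm (Fin m)) → ℕ,
          (∀ H, meromorphicOrderAt (A.Lin (H.map j) 1) s₀ = (o H : WithTop ℤ)) ∧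
          (∀ H, FreeSub H → Nat.card H ≤ N → 0 < o ⊥ → 0 < o H) ∧
          ∀ H H', FreeSub H → FreeSub H' → Nat.card H < Nat.card H' → Nat.card H' ≤ N →
            o H' ≤ o H ∧
            ∀ U U', FreeSub U → FreeSub U' → Nat.card U < Nat.card U' → Nat.card U' ≤ N →
              ((o H : ℝ) - o H') * (1 / (Nat.card U : ℝ) - 1 / (Nat.card U' : ℝ)) ≤
                (1 + ε) *
                  (((o U : ℝ) - o U') * (1 / (Nat.card H : ℝ) - 1 / (Nat.card H' : ℝ))) :=
  zeta_main N ε hε
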