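import Pool.Agent.Y693.RF.ThmC

/-!
# Quotients of Dedekind zeta functions and Artin `L`-functions for random extensions

`F` is a number field of degree `d` and `f` a monic polynomial of degree `n` over `𝓞_F`.  For an integer
`t` let `L = F(θ)` be the extension of degree `n` of `F` generated by a root `θ` of `f + t` (for a given
`f` it exists for all but `O(X^{1/2} log X)` of the integers `|t| ≤ X`, by Hilbert's irreducibility
theorem; the Galois group of its Galois closure is the symmetric group `S_n` for most `f` and `t`, and for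
`n ≥ 5` the quotient `ζ_L(s) / ζ_F(s)` is then not known to be entire).  The theorem concerns the
quotients `ζ_L(s) / ζ_F(s)` and, more generally, `L(s, M / L) / L(s, M)` for systems `M` over `F`, for
example Hecke characters or, outside finitely many primes, Artin representations `M` of `F`; if `M` is the
permutation representation of an extension `K` of `F`, this is
`ζ_{LK}(s) / ζ_K(s)` (up to finitely many factors, for `L` and `K` linearly disjoint over `F`).  If
such a quotient is entire and satisfies the Riemann hypothesis, then its partial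
Euler products over the primes of norm at most `y` and `x` are close to each other for all `x ≥ y` from a
power of `log X` on, in every half-plane `Re s ≥ 1/2 + δ`.  The theorem proves this up to a power of `X`,
for all `t` outside a set of at most `X^{1-c}` exceptions and for any `X^c` systems `M` at once,
uniformly in all number fields `F` of degree `d`.
-/

set_option autoImplicit false

namespace Pool.Agent.Results.MP_9fc8a5_nt.RandomFieldQuotients

open NumberField IsDedekindDomain

/-- The Euler factor `∏_j (1 - γ_{v,j} Nv^{-s})⁻¹` at `v` of `L(s, M)`, for a system `M` with the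
eigenvalues `γ_{v,1}, …, γ_{v,N}`; for `N = 1` and `γ = 1` it is the Euler factor of the Dedekind
zeta function. -/
noncomputable def factor {K : Type} [Field K] [NumberField K] {N : ℕ}
    (γ : HeightOneSpectrum (𝓞 K) → Fin N → ℂ) (s : ℂ) (v : HeightOneSpectrum (𝓞 K)) : ℂ :=
  ∏ j, (1 - γ v j * (Ideal.absNorm v.asIdeal : ℂ) ^ (-s))⁻¹

/-- `P_x(s, M)`: the product of the Euler factors at the primes `v` with `Nv ≤ x`. -/
noncomputable def partialProduct {K : Type} [Field K] [NumberField K] {N : ℕ}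
    (γ : HeightOneSpectrum (𝓞 K) → Fin N → ℂ) (s : ℂ) (x : ℕ) : ℂ :=
  ∏ᶠ v ∈ {v : HeightOneSpectrum (𝓞 K) | Ideal.absNorm v.asIdeal ≤ x}, factor γ s v

/-- `L(s, M)`: the product of all Euler factors, for `Re s > 1`; the Dedekind zeta function for
`N = 1` and `γ = 1`. -/
noncomputable def LFun {K : Type} [Field K] [NumberField K] {N : ℕ}
    (γ : HeightOneSpectrum (𝓞 K) → Fin N → ℂ) (s : ℂ) : ℂ :=
  ∏' v : HeightOneSpectrum (𝓞 K), factor γ s v

/-- The base change to `L` of a system `M` over `F` with the eigenvalues `γ_{v,j}`: at a prime `w` of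
`L` above `v` its eigenvalues are `γ_{v,j} ^ f(w|v)`, where `f(w|v)` is the residue degree. -/
noncomputable def baseChange {F : Type} [Field F] [NumberField F] {N : ℕ} (L : Type) [Field L]
    [NumberField L] [Algebra F L] (γ : Ideal (𝓞 F) → Fin N → ℂ) (w : HeightOneSpectrum (𝓞 L))
    (j : Fin N) : ℂ :=
  γ (w.asIdeal.comap (algebraMap (𝓞 F) (𝓞 L))) j ^
    Ideal.inertiaDeg' (w.asIdeal.comap (algebraMap (𝓞 F) (𝓞 L))) w.asIdeal

/-- `L = F(θ)` is an extension of `F` of degree `deg f`, and `θ` is a root of `f + t`. -/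
def Generates {F : Type} [Field F] [NumberField F] {L : Type} [Field L] [NumberField L] [Algebra F L]
    (f : Polynomial (𝓞 F)) (t : ℤ) (θ : 𝓞 L) : Prop :=
  Polynomial.aeval θ (f + Polynomial.C (t : 𝓞 F)) = 0 ∧ Module.finrank F L = f.natDegree ∧
    Algebra.adjoin F {(θ : L)} = ⊤

/-- All conjugates of all coefficients of `f` have absolute value at most `R`. -/
def HeightLE {F : Type} [Field F] [NumberField F] (R : ℝ) (f : Polynomial (𝓞 F)) : Prop :=
  ∀ i, ∀ σ : F →+* ℂ, ‖σ (f.coeff i : F)‖ ≤ R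

/-- The quotient `Q_x(s) = P_x(s, M / L) / P_x(s, M)` of the partial Euler products over `L` and over
`F`, for a system `M` over `F`. -/
noncomputable def quotient {F : Type} [Field F] [NumberField F] {N : ℕ}
    (γ : Ideal (𝓞 F) → Fin N → ℂ) (L : Type) [Field L] [NumberField L] [Algebra F L] (s : ℂ)
    (x : ℕ) : ℂ :=
  partialProduct (baseChange L γ) s x /
    partialProduct (fun v : HeightOneSpectrum (𝓞 F) => γ v.asIdeal) s x

/-- In the critical strip: `|Q_x(s) / Q_y(s) - 1| ≤ y^{-c}` for all `s` with `Re s ≥ 1/2 + δ`,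
`|Im s| ≤ X^c` and all `(log X)^{1/c} ≤ y ≤ x ≤ X^c`. -/
def RegularStrip {F : Type} [Field F] [NumberField F] {N : ℕ} (δ c : ℝ) (X : ℕ)
    (γ : Ideal (𝓞 F) → Fin N → ℂ) (L : Type) [Field L] [NumberField L] [Algebra F L] : Prop :=
  ∀ s : ℂ, 1 / 2 + δ ≤ s.re → |s.im| ≤ (X : ℝ) ^ c → ∀ y x : ℕ, (Real.log X) ^ (1 / c) ≤ y → y ≤ x →
    (x : ℝ) ≤ (X : ℝ) ^ c → ‖quotient γ L s x / quotient γ L s y - 1‖ ≤ (y : ℝ) ^ (-c)

/-- At the edge: `|(L(s, M / L) / L(s, M)) / Q_y(s) - 1| ≤ η` for all `s` with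
`Re s ≥ 1 + A / log X`, `|Im s| ≤ X^c` and all `y ≥ (log X)^{1/c}`. -/
def RegularEdge {F : Type} [Field F] [NumberField F] {N : ℕ} (η A c : ℝ) (X : ℕ)
    (γ : Ideal (𝓞 F) → Fin N → ℂ) (L : Type) [Field L] [NumberField L] [Algebra F L] : Prop :=
  ∀ s : ℂ, 1 + A / Real.log X ≤ s.re → |s.im| ≤ (X : ℝ) ^ c → ∀ y : ℕ,
    (Real.log X) ^ (1 / c) ≤ y →
      ‖(LFun (baseChange L γ) s / LFun (fun v : HeightOneSpectrum (𝓞 F) => γ v.asIdeal) s) /
        quotient γ L s y - 1‖ ≤ η

/-- **Quotients of zeta and `L`-functions for random extensions.**  Let `d`, `n`, `N` be positive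
integers, `B` real and `δ > 0`.  There is `c > 0`, and for every `η > 0` there are `A` and `X₀`, such that
for all `X ≥ X₀`, all number fields `F` of degree `d`, all monic polynomials `f` of degree `n` over `𝓞_F`
whose coefficients have conjugates of absolute value at most `exp((log X)^B)`, and any `m ≤ X^c` systems
`M_1, …, M_m` of rank `N` over `F` (for example `m = N = 1` and `M_1` trivial), the following holds for all
integers `t` with `|t| ≤ X`, with at most `X^{1-c}` exceptions: for every extension `L = F(θ)` of `F` of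
degree `n`, where `θ` is a root of `f + t`, and for all `k`, the quotients `Q_x(s)` of the partial Euler
products of `L(s, M_k / L)` and `L(s, M_k)` (of `ζ_L(s)` and `ζ_F(s)` if `M_k` is trivial) satisfy
`|Q_x(s) / Q_y(s) - 1| ≤ y^{-c}` for all `s` with `Re s ≥ 1/2 + δ`, `|Im s| ≤ X^c` and all
`(log X)^{1/c} ≤ y ≤ x ≤ X^c`, and `|(L(s, M_k / L) / L(s, M_k)) / Q_y(s) - 1| ≤ η` for all `s` with
`Re s ≥ 1 + A / log X`, `|Im s| ≤ X^c` and all `y ≥ (log X)^{1/c}`.

Only `|γ_{v,j}| ≤ 1` is used of the eigenvalues of the systems. -/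
theorem result (d n N : ℕ) (_ : 0 < n) (B δ : ℝ) (_ : 0 < δ) :
    ∃ c : ℝ, 0 < c ∧ ∀ η : ℝ, 0 < η → ∃ A : ℝ, ∃ X₀ : ℕ, ∀ X : ℕ, X₀ ≤ X →
      ∀ (F : Type) [Field F] [NumberField F], Module.finrank ℚ F = d →
      ∀ f : Polynomial (𝓞 F), f.Monic → f.natDegree = n → HeightLE (Real.exp ((Real.log X) ^ B)) f →
      ∀ m : ℕ, (m : ℝ) ≤ (X : ℝ) ^ c →
        ∀ (γ : Fin m → Ideal (𝓞 F) → Fin N → ℂ), (∀ k v j, ‖γ k v j‖ ≤ 1) →
        ({t : ℤ | |t| ≤ X ∧ ¬ ∀ (L : Type) [Field L] [NumberField L] [Algebra F L] (θ : 𝓞 L),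
          Generates f t θ → ∀ k, RegularStrip δ c X (γ k) L ∧
            RegularEdge η A c X (γ k) L}.ncard : ℝ) ≤ (X : ℝ) ^ (1 - c) := by
  rename_i hn hδ
  obtain ⟨c, hc0, hc⟩ := Pool.Agent.Y693.RF.thmC d n N hn B δ hδ
  refine ⟨c, hc0, fun η hη => ?_⟩
  obtain ⟨A, X₀, h⟩ := hc η hη
  refine ⟨A, X₀, fun X hX F _ _ hF f hf hfn hcoef m hm γ hγ => ?_⟩
  have h1 := h X hX F hF f hf hfn hcoef m hm γ hγ
  refine le_trans (le_of_eq ?_) h1
  congr 2
  ext t
  refine and_congr_right fun _ => not_congr ?_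
  constructor
  · intro h2 L _ _ _ θ hθ
    exact h2 L θ ⟨hθ.root, by rw [hθ.deg, Polynomial.natDegree_add_C], hθ.top⟩
  · intro h2 L _ _ _ θ hθ
    exact h2 L θ ⟨hθ.1, by rw [hθ.2.1, Polynomial.natDegree_add_C], hθ.2.2⟩

end Pool.Agent.Results.MP_9fc8a5_nt.RandomFieldQuotients
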