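import Mathlib
import Pool.Agent.Y697.AR.Scal

/-!
# Quotients of Dedekind zeta functions at zeros which come from Hecke L-functions of subnormal fields

`Pool.Agent.H541R3.ART.ArtinData G s₀` is a family of functions with the formal properties of the
Artin L-functions of a Galois extension `E/K` with group `G` near a point `s₀ ≠ 1`: functions
`L χ` for the irreducible characters `χ` of `G`, meromorphic and not identically zero near `s₀`
(Brauer), and `Lin H ψ` for the linear characters `ψ` of the subgroups `H`, without pole at `s₀`
(Artin reciprocity and Hecke), such that `Lin H ψ` is the product of the `L χ ^ ⟨χ|_H, ψ⟩`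
(induction). In particular `Lin H 1` stands for the Dedekind zeta function of the fixed field of
`H`, and `Lin H ψ` for a Hecke L-function of this field.

`Pool.Agent.TH820.BuiltSC P Q` says that the group `Q` (here: its subgroup `⊤`) is obtained from the
trivial group by finitely many steps `M ≤ M'`, `M` and `M'` normal, such that `M' / M` is abelian or
generated by finitely many pairwise commuting subgroups, each a homomorphic image of a finite group
with the property `P`. `Pool.Agent.TH820.FacO r S` holds if all Heilbronn functions of degree at most
`r` on `S` are constant.

The case of one normal subgroup `H` and the trivial character is part (3) of the result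
`MP_9fc8a5_nt.EqualOrders` of the starting library; the case where `S` is empty and `M` solvable is
the theorem of Uchida and van der Waall.
-/

set_option autoImplicit false

open Pool.Agent.H541R3.ART

/-- Let `G` be the Galois group of `E/K` and `r` the order of `ζ_E` at `s₀`. Let `S` be any set of
subnormal subgroups `H` of `G` (`E ^ H` is reached from `K` by a chain of Galois extensions) such that
some Hecke L-function of the field `E ^ H` (the L-function of some linear character of `H`, not
necessarily the trivial one) has order `r` at `s₀`, and let `N` be the normal subgroup generated by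
the members of `S`, so that `F₀ = E ^ N` is the largest Galois extension of `K` contained in all the
fields `E ^ H`, `H ∈ S`. If `M` is a subgroup such that `M / (M ∩ N)`, the Galois group of
`E ^ M F₀ / E ^ M`, is solvable (or built from abelian groups and groups with `FacO r`), then for all
`U ≤ M` the order of `ζ_{E ^ M}` at `s₀` is at most that of `ζ_{E ^ U}`: the quotient
`ζ_{E ^ U} / ζ_{E ^ M}` is holomorphic at `s₀`. More generally this holds for the L-functions of a
linear character `ρ` of `M` and of its restriction to `U`. -/
theorem Pool.Agent.Results.MP_9fc8a5_nt.SubnormalHeckeZeros.result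
    (G : Type) [Group G] [Finite G] (s₀ : ℂ) (A : ArtinData G s₀) (r : ℕ)
    (hr : meromorphicOrderAt (A.Lin ⊥ 1) s₀ = (r : WithTop ℤ)) (S : Set (Subgroup G))
    (hS : ∀ H ∈ S, H.IsSubnormal ∧
      ∃ l : H →* ℂˣ, meromorphicOrderAt (A.Lin H l) s₀ = (r : WithTop ℤ))
    (N : Subgroup G) [N.Normal] (hN : N = Subgroup.normalClosure (⋃ H ∈ S, (H : Set G)))
    (U M : Subgroup G) (hUM : U ≤ M)
    (hM : Group.IsSolvable (M ⧸ N.subgroupOf M) ∨
      Pool.Agent.TH820.BuiltSC (Pool.Agent.TH820.FacO r) (⊤ : Subgroup (M ⧸ N.subgroupOf M)))
    (ρ : M →* ℂˣ) :
    meromorphicOrderAt (A.Lin M ρ) s₀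
      ≤ meromorphicOrderAt (A.Lin U (ρ.comp (Subgroup.inclusion hUM))) s₀ := by
  refine Pool.Agent.Y697.AR.quot_le A hr S hS N hN U M hUM ?_ ρ
  rcases hM with h | h
  · exact Pool.Agent.TH820.builtSC_solvable h
  · exact h
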