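import Mathlib
import Pool.Agent.Y788.SC.Final

/-!
# Quotients of Dedekind zeta functions: Galois groups containing a large alternating group

`Pool.Agent.H541R3.ART.ArtinData Γ s₀` is a family of functions with the formal properties of the
Artin L-functions of a Galois extension `E/K` of number fields with group `Γ` near a point
`s₀ ≠ 1`: functions `L ψ` for the irreducible characters `ψ` of `Γ` and `Lin U l` for the linear
characters `l` of the subgroups `U`, such that `L ψ` is meromorphic and not identically zero near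
`s₀` (Brauer), `Lin U l` has no pole at `s₀` (Artin reciprocity and Hecke), and `Lin U l` is the
product of the `L ψ ^ ⟨ψ|_U, l⟩` (induction). In particular `Lin U 1` stands for the Dedekind zeta
function of the fixed field of `U`, and `Lin U (χ|_U)`, for a linear character `χ` of `Γ`, for the
L-function of `χ` over this field.

`Pool.Agent.Y788.SC.Doubled k σ` says that every cycle length (at least 2) of the permutation `σ`
occurs an even number of times and that `σ` moves at most `2 k` points.

`Pool.Agent.Y786.FR.ind` is the induced class function.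
-/

set_option autoImplicit false

open Pool.Agent.H541R3.ART Pool.Agent.Y786.FR Pool.Agent.Y788.SC Filter Topology

/-- **First part.** Every finite group `G` is isomorphic to a group of doubled even permutations of
`m` points moving at most `2 |G|` points, for every `m ≥ 2 |G|`.

**Second part.** Let `H` be a group of even permutations of `m` points all of whose elements are
doubled and move at most `2 k` points, and let `m ≥ 1152 |H| ^ 4 k`. Let `Γ` be any finite group
which contains the alternating group `A_m` (through `j`) as a subnormal subgroup, for instance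
`S_m` or `A_m`.

* A positive multiple of `Ind_H^Γ 1 - 1` is a sum of characters of `Γ` induced from linear
  characters `lam i` of subgroups `C i`. So for every Galois extension `E/K` with group `Γ` and
  `L = E ^ H` a positive power of `ζ_L / ζ_K` is the product of the Hecke L-functions of the
  `lam i`.
* Let `χ` be a linear character of `Γ`, and for a subgroup `U` let `o U` be the order of vanishing
  at `s₀ ≠ 1` of the L-function of `χ` over the field `E ^ U` (for `χ = 1` the Dedekind zeta
  function of this field). Then `o Γ ≤ o A_m ≤ o H`: the quotient `ζ_L / ζ_K` and its twists are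
  holomorphic at `s₀`. Moreover `o 1 - o A_m ≤ 4 |H| ^ 2 (o H - o A_m)`. -/
theorem Pool.Agent.Results.MP_9fc8a5_nt.SymmetricClosure.result :
    (∀ (m : ℕ) (G : Type) [Group G] [Finite G], 2 * Nat.card G ≤ m →
      ∃ φ : G →* alternatingGroup (Fin m), Function.Injective φ ∧
        ∀ g, Doubled (Nat.card G) (φ g : Equiv.Perm (Fin m))) ∧
    ∀ (m k : ℕ) (H : Subgroup (alternatingGroup (Fin m))),
      (∀ σ ∈ H, Doubled k (σ : Equiv.Perm (Fin m))) → 1152 * Nat.card H ^ 4 * k ≤ m →
      ∀ (Γ : Type) [Group Γ] [Finite Γ] (j : alternatingGroup (Fin m) →* Γ),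
        Function.Injective j → j.range.IsSubnormal →
        (∃ (n l : ℕ) (C : Fin l → Subgroup Γ) (lam : ∀ i, C i →* ℂˣ), 0 < n ∧
          (∀ σ : Γ, (n : ℂ) * (ind (H.map j).subtype (fun _ => 1) σ - 1) =
            ∑ i, ind (C i).subtype (fun c => ((lam i c : ℂˣ) : ℂ)) σ) ∧
          ∀ (s₀ : ℂ) (A : ArtinData Γ s₀), (fun s => A.Lin (H.map j) 1 s ^ n) =ᶠ[𝓝[≠] s₀]
            fun s => A.Lin ⊤ 1 s ^ n * ∏ i, A.Lin (C i) (lam i) s) ∧
        ∀ (s₀ : ℂ) (A : ArtinData Γ s₀) (χ : Γ →* ℂˣ), ∃ o : Subgroup Γ → ℕ,
          (∀ U, meromorphicOrderAt (A.Lin U (χ.comp U.subtype)) s₀ = (o U : WithTop ℤ)) ∧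
          o ⊤ ≤ o j.range ∧ o j.range ≤ o (H.map j) ∧
          (o ⊥ : ℤ) - o j.range ≤ 4 * (Nat.card H : ℤ) ^ 2 * ((o (H.map j) : ℤ) - o j.range) := by
  refine ⟨fun m G _ _ hm => exists_doubled m G hm, ?_⟩
  intro m k H hH hm Γ _ _ j hj hsub
  refine ⟨main_cone H hH hm j hj hsub, fun s₀ A χ => ?_⟩
  choose o ho1 ho2 using order_twist A χ
  have h := main_ineq (twist A.isHeilbronn χ) H hH hm j hj hsub (ho2 ⊤) (ho2 j.range)
    (ho2 (H.map j))
  have h1 : ((theta A.ord (1 : Γ)) * (((χ 1)⁻¹ : ℂˣ) : ℂ)).re = o ⊥ := by
    have h2 := ho2 ⊥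
    rw [finsum_eq_sum_of_fintype, Nat.card_eq_fintype_card] at h2
    have h3 : ((theta A.ord (1 : Γ)) * (((χ 1)⁻¹ : ℂˣ) : ℂ)) = (o ⊥ : ℂ) := by
      rw [Fintype.sum_unique, Fintype.card_unique, Nat.cast_one, mul_one] at h2
      exact h2
    rw [h3, Complex.natCast_re]
  rw [h1] at h
  refine ⟨o, ho1, h.1, h.2.1, ?_⟩
  exact_mod_cast h.2.2
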